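import Pool.Agent.X180.Tow.Sys

/-!
Chains of fibrations.
-/

set_option autoImplicit false
set_option linter.overlappingInstances false

open FF Pool.Agent.W602.GT Pool.Agent.W603.LV Pool.Agent.W619.PQ Pool.Agent.W619.Y
open Pool.Agent.TH585.SV Pool.Agent.Y172 Pool.Agent.Y191 Pool.Agent.X180.Iso

namespace Pool.Agent.X180.Tow

variable {K : Type} [Field K] [Algebra ℂ K]

/-- **Chains of fibrations.** -/
theorem chain {N e' lam' : ℕ} (hN : Algebra.trdeg ℂ K = N) {X : Set (Place ℂ K)}
    {δ : Place ℂ K → ℝ} : ∀ (l : ℕ) (E : Fin (l + 1) → IntermediateField ℂ K)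
    (_ : ∀ i : Fin l, E i.castSucc ≤ E i.succ)
    (_ : ∀ i : Fin l, Algebra.EssFiniteType ℂ (E i.succ)) (D : Fin (l + 1) → ℕ)
    (_ : ∀ i, Algebra.trdeg ℂ (E i) = D i) (e lam : Fin l → ℕ)
    (_ : ∀ i : Fin l, D i.succ = D i.castSucc + e i) (_ : N = D (Fin.last l) + e')
    (_ : ∀ i : Fin l, HasForms (D i.castSucc + e i)
      {p : Place ℂ (E i.succ) | Divisorial (D i.castSucc + e i) p} (fun _ => 0)
      (dn (E i.succ) (E i.castSucc)) (e i) (lam i))
    (_ : HasForms N X δ (E (Fin.last l)) e' lam'),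
    HasForms N X δ (E 0) (∑ i, e i + e') (∑ i, lam i + lam') := by
  intro l
  induction l with
  | zero =>
    intro E _ _ D _ e lam _ _ _ hθ
    simpa using hθ
  | succ l ih =>
    intro E hE hess D hD e lam he hNe hη hθ
    have h1 : HasForms N X δ (E (Fin.succ 0)) (∑ i : Fin l, e i.succ + e')
        (∑ i : Fin l, lam i.succ + lam') :=
      ih (fun i => E i.succ) (fun i => hE i.succ) (fun i => hess i.succ) (fun i => D i.succ)
        (fun i => hD i.succ) (fun i => e i.succ) (fun i => lam i.succ) (fun i => he i.succ)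
        hNe (fun i => hη i.succ) hθ
    have h0 := hess 0
    have hle : E (Fin.castSucc 0) ≤ E (Fin.succ 0) := hE 0
    have hE1 : Algebra.trdeg ℂ (E (Fin.succ 0)) = (D (Fin.castSucc 0) + e 0 : ℕ) := by
      rw [hD, he 0]
    -- the dimension of `K` over `E 1`
    have hsum : D (Fin.last (l + 1)) = D (Fin.succ 0) + ∑ i : Fin l, e i.succ := by
      have h2 : ∀ (l : ℕ) (D : Fin (l + 1) → ℕ) (e : Fin l → ℕ),
          (∀ i : Fin l, D i.succ = D i.castSucc + e i) → D (Fin.last l) = D 0 + ∑ i, e i := by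
        intro l
        induction l with
        | zero =>
          intro D e _
          simp
        | succ l ih =>
          intro D e h
          rw [Fin.sum_univ_castSucc, ← add_assoc, ← Fin.succ_last, h]
          congr 1
          exact ih (fun i => D i.castSucc) (fun i => e i.castSucc) fun i => h i.castSucc
      exact h2 l (fun i => D i.succ) (fun i => e i.succ) fun i => he i.succ
    have hKE : Algebra.trdeg (E (Fin.succ 0)) K = (∑ i : Fin l, e i.succ + e' : ℕ) := by
      refine trdeg_rel (d := D (Fin.succ 0)) ?_ (hD _)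
      rw [hN, hNe, hsum, add_assoc]
    have h3 := HasForms.comp hle hN hE1 (hD _) hKE (hη 0) h1
    rw [Fin.sum_univ_succ, Fin.sum_univ_succ, add_assoc (e 0), add_assoc (lam 0)]
    exact h3

end Pool.Agent.X180.Tow
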