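import Pool.Agent.X180.Tow.Tower
import Pool.Agent.X180.Iso.SysPair
import Pool.Agent.X180.Multi.Pair

/-!
Two step fibrations over bases with highly ramified linear systems or arrangements.
-/

set_option autoImplicit false
set_option linter.overlappingInstances false

open FF Pool.Agent.W602.GT Pool.Agent.W603.LV Pool.Agent.W619.PQ Pool.Agent.W619.Y
open Pool.Agent.TH585.SV Pool.Agent.Y172 Pool.Agent.Y191 Pool.Agent.X180.Iso

namespace Pool.Agent.X180.Tow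

variable {K : Type} [Field K] [Algebra ℂ K]

/-- the existence of forms along the fibres -/
def HasForms (N : ℕ) (X : Set (Place ℂ K)) (δ : Place ℂ K → ℝ) (L : IntermediateField ℂ K)
    (e lam : ℕ) : Prop :=
  ∃ m : ℕ, 0 < m ∧ ∃ θ : Fin (lam + 1) → (Fin e → Derivation L K K) → K,
    (∀ b, FibSec N m X δ L (θ b)) ∧ ∃ G, θ 0 G ≠ 0 ∧
      AlgebraicIndependent L (fun i : Fin lam => θ i.succ G / θ 0 G)

theorem fibSec_mono {N m e : ℕ} {X : Set (Place ℂ K)} {δ δ' : Place ℂ K → ℝ}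
    {L : IntermediateField ℂ K} {θ : (Fin e → Derivation L K K) → K} (h : FibSec N m X δ L θ)
    (hδ : ∀ P ∈ X, δ P ≤ δ' P) : FibSec N m X δ' L θ := by
  refine ⟨h.1, fun P hP hPd G hG => ?_⟩
  rcases h.2 P hP hPd G hG with h1 | h1
  · exact Or.inl h1
  · right
    have h2 := mul_le_mul_of_nonneg_left (hδ P hP) (Nat.cast_nonneg (α := ℝ) m)
    linarith

theorem HasForms.mono {N e lam : ℕ} {X : Set (Place ℂ K)} {δ δ' : Place ℂ K → ℝ}
    {L : IntermediateField ℂ K} (h : HasForms N X δ L e lam)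
    (hδ : ∀ P ∈ X, δ P ≤ δ' P) : HasForms N X δ' L e lam := by
  obtain ⟨m, hm, θ, h1, h2⟩ := h
  exact ⟨m, hm, θ, fun b => fibSec_mono (h1 b) hδ, h2⟩

/-- the subfield as a subfield of `E` -/
noncomputable def dn (E L : IntermediateField ℂ K) : IntermediateField ℂ E :=
  L.comap E.val

theorem up_dn {E L : IntermediateField ℂ K} (h : L ≤ E) : upF K (dn E L) = L := by
  ext z
  rw [mem_upF]
  constructor
  · rintro ⟨a, ha, rfl⟩
    exact ha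
  · intro hz
    exact ⟨⟨z, h hz⟩, hz, rfl⟩

theorem trdeg_dn {E L : IntermediateField ℂ K} (h : L ≤ E) {d : ℕ} (hL : Algebra.trdeg ℂ L = d) :
    Algebra.trdeg ℂ (dn E L) = d := by
  rw [← hL]
  have h1 := ((dn E L).equivMap (IsScalarTower.toAlgHom ℂ E K)).trdeg_eq
  change _ = Algebra.trdeg ℂ (upF K (dn E L)) at h1
  rw [up_dn h] at h1
  exact h1

/-- **Composition.** -/
theorem HasForms.comp {E L : IntermediateField ℂ K} [Algebra.EssFiniteType ℂ E] (hLE : L ≤ E)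
    {N d0 d e κ lam : ℕ} {X : Set (Place ℂ K)} {δ : Place ℂ K → ℝ}
    (hN : Algebra.trdeg ℂ K = N) (hE : Algebra.trdeg ℂ E = (d0 + d : ℕ))
    (hL : Algebra.trdeg ℂ L = d0) (he : Algebra.trdeg E K = e)
    (hη : HasForms (d0 + d) {p | Divisorial (d0 + d) p} (fun _ => 0) (dn E L) d κ)
    (hθ : HasForms N X δ E e lam) : HasForms N X δ L (d + e) (κ + lam) := by
  obtain ⟨M, hM, η, h1, h2⟩ := hη
  obtain ⟨m, hm, θ, h3, h4⟩ := hθ
  have hd : Algebra.trdeg (dn E L) E = d := by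
    have h5 := _root_.trdeg_add_eq ℂ (dn E L) (A := E)
    rw [hE, trdeg_dn hLE hL] at h5
    push_cast at h5
    exact Cardinal.eq_of_add_eq_add_left h5 Cardinal.natCast_lt_aleph0
  obtain ⟨ω, h5, h6⟩ := tower hN hE (trdeg_dn hLE hL) hd he hM hm h1 h2 h3 h4
  have h7 : HasForms N X δ (upF K (dn E L)) (d + e) (κ + lam) :=
    ⟨M * m, Nat.mul_pos hM hm, ω, h5, h6⟩
  rwa [up_dn hLE] at h7

theorem hor_le {E L : IntermediateField ℂ K} (hLE : L ≤ E) {δ : Place ℂ K → ℝ} {P : Place ℂ K}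
    (hδ : 0 ≤ δ P) : hor E δ P ≤ hor L δ P := by
  unfold hor
  split_ifs with h1 h2 h2
  · exact le_rfl
  · exact absurd (fun f hf => h1 f (hLE hf)) h2
  · exact hδ
  · exact le_rfl

theorem hor_nonneg {L : IntermediateField ℂ K} {δ : Place ℂ K → ℝ} {P : Place ℂ K}
    (hδ : 0 ≤ δ P) : 0 ≤ hor L δ P := by
  unfold hor
  split_ifs
  · exact hδ
  · exact le_rfl

/-- **Two step fibrations over linear systems.** -/
theorem sys_tower {d d1 e n q c κ₁ lam : ℕ} (hd : 1 ≤ d) (hdn : d ≤ n)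
    (hK : Algebra.trdeg ℂ K = (d + (d1 + e) : ℕ)) {V : Submodule ℂ K}
    (hV : Algebra.trdeg ℂ (rf V) = d) {φ : Fin q → K} (hφ0 : ∀ i, φ i ≠ 0)
    (hφ : Submodule.span ℂ (Set.range φ) = V) {γ : Fin q → Fin c} (hγ : Dcp n V φ γ)
    (hc : ∀ γ' : Fin q → Fin (c + 1), ¬ Dcp n V φ γ') {R : ℕ}
    (hR : R + c = n + 3 ∨
      (c = 1 ∧ (∃ τ : Fin (n + 3) → Fin q, ∀ i j, i ≠ j → ∀ t : ℂ, φ (τ i) ≠ t • φ (τ j)) ∧
        R = n + 1)) {s : ℝ}
    (hs : (R : ℝ) * (((n : ℝ) - d + 1) * ((n : ℝ) - d + 2)) ≤ 2 * s) {X : Set (Place ℂ K)}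
    {δ : Place ℂ K → ℝ} (hδ : ∀ P ∈ X, 0 ≤ δ P)
    (h : ∀ P ∈ X, Divisorial (d + (d1 + e)) P → ∀ a : ℤ, (∀ f ∈ V, f = 0 ∨ a ≤ P.ord f) →
      (∃ f ∈ V, f ≠ 0 ∧ P.ord f = a) → (∃ i, P.ord (φ i) ≠ a) →
      ∃ i i', γ i' = γ i ∧ s * (1 - δ P) ≤ ((P.ord (φ i) - P.ord (φ i') : ℤ) : ℝ))
    (E : IntermediateField ℂ K) [Algebra.EssFiniteType ℂ E] (hVE : rf V ≤ E)
    (hE : Algebra.trdeg ℂ E = (d + d1 : ℕ))
    (hη : HasForms (d + d1) {p | Divisorial (d + d1) p} (fun _ => 0) (dn E (rf V)) d1 κ₁)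
    (hθ : HasForms (d + (d1 + e)) X (hor E δ) E e lam) :
    Pool.Agent.Y191.KodairaGe (d + (d1 + e)) X δ (κ₁ + lam) ∧
    ((R : ℝ) * (((n : ℝ) - d + 1) * ((n : ℝ) - d + 2)) < 2 * s →
        ∀ κ : ℕ, κ + c = d + 1 →
          Pool.Agent.Y191.KodairaGe (d + (d1 + e)) X δ (κ + (κ₁ + lam))) := by
  have he : Algebra.trdeg E K = e := by
    refine trdeg_rel (d := d + d1) ?_ hE
    rw [hK, add_assoc]
  have h1 : HasForms (d + (d1 + e)) X (hor (rf V) δ) (rf V) (d1 + e) (κ₁ + lam) :=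
    HasForms.comp hVE hK hE hV he hη (hθ.mono fun P hP => hor_le hVE (hδ P hP))
  exact sys_pair hd hdn hK hV hφ0 hφ hγ hc hR hs hδ h h1

/-- **Two step fibrations over products of projective spaces.** -/
theorem multi_tower {m d1 e κ₁ lam : ℕ} {n q : Fin m → ℕ}
    {ℓ : ∀ i, Fin (q i) → Pool.Agent.W602.Cov.Form (n i)}
    (hn : ∀ i, 1 ≤ n i) (hℓ : ∀ i k, ℓ i k ≠ 0) (hr : ∀ i, ¬ Pool.Agent.W602.Cov.Reducible (ℓ i))
    {d : Fin m → ℕ} (hd : ∀ i, Pool.Agent.TH756.PR.Bnd (ℓ i) (d i)) {x : ∀ i, Fin (n i + 1) → K}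
    (hx0 : ∀ i, x i 0 ≠ 0) (hind : AlgebraicIndependent ℂ (Pool.Agent.X180.Multi.aff x))
    (hK : Algebra.trdeg ℂ K = (∑ i, n i + (d1 + e) : ℕ)) {X : Set (Place ℂ K)}
    {δ : Place ℂ K → ℝ} (hδ : ∀ P ∈ X, 0 ≤ δ P) {τ : ℝ} (hτ : 1 ≤ τ)
    (hP : ∀ P ∈ X, Divisorial (∑ i, n i + (d1 + e)) P →
      Pool.Agent.X180.Multi.High ℓ x d (τ * (1 - δ P)) P)
    (E : IntermediateField ℂ K) [Algebra.EssFiniteType ℂ E]
    (hVE : Pool.Agent.X180.Multi.BF x ≤ E)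
    (hE : Algebra.trdeg ℂ E = (∑ i, n i + d1 : ℕ))
    (hη : HasForms (∑ i, n i + d1) {p | Divisorial (∑ i, n i + d1) p} (fun _ => 0)
      (dn E (Pool.Agent.X180.Multi.BF x)) d1 κ₁)
    (hθ : HasForms (∑ i, n i + (d1 + e)) X (hor E δ) E e lam) :
    Pool.Agent.Y191.KodairaGe (∑ i, n i + (d1 + e)) X δ (κ₁ + lam) ∧
      (1 < τ → Pool.Agent.Y191.KodairaGe (∑ i, n i + (d1 + e)) X δ
        (∑ i, n i + (κ₁ + lam))) := by
  have he : Algebra.trdeg E K = e := by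
    refine trdeg_rel (d := ∑ i, n i + d1) ?_ hE
    rw [hK, add_assoc]
  have h1 : HasForms (∑ i, n i + (d1 + e)) X (hor (Pool.Agent.X180.Multi.BF x) δ)
      (Pool.Agent.X180.Multi.BF x) (d1 + e) (κ₁ + lam) :=
    HasForms.comp hVE hK hE (Pool.Agent.X180.Multi.trdeg_BF hind) he hη
      (hθ.mono fun P hP => hor_le hVE (hδ P hP))
  exact Pool.Agent.X180.Multi.multi_pair hn hℓ hr hd hx0 hind hK hδ hτ hP h1

end Pool.Agent.X180.Tow
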