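import Pool.Agent.X180.Tow.Split
import Pool.Agent.X180.Iso.Alb

/-!
The pull back of forms along the fibres from a subfield.
-/

set_option autoImplicit false
set_option linter.overlappingInstances false

open FF Pool.Agent.W602.GT Pool.Agent.W603.LV Pool.Agent.W619.PQ Pool.Agent.W619.Y
open Pool.Agent.TH585.SV Pool.Agent.Y172 Pool.Agent.Y191 Pool.Agent.X180.Iso

namespace Pool.Agent.X180.Tow

variable {K : Type} [Field K] [Algebra ℂ K] {E : IntermediateField ℂ K} {LE : IntermediateField ℂ E}
  {d0 d : ℕ}

/-- **The pull back of forms along the fibres.** -/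
theorem pull_est [Algebra.EssFiniteType ℂ E] {N M : ℕ} (hN : Algebra.trdeg ℂ K = N)
    (hE : Algebra.trdeg ℂ E = (d0 + d : ℕ)) (hLE : Algebra.trdeg ℂ LE = d0) {t : Fin d → E}
    (ht : IsTranscendenceBasis LE t) {Dt : Fin d → Derivation LE E E}
    (hDt : ∀ i j, Dt i (t j) = if i = j then 1 else 0)
    {η : (Fin d → Derivation LE E E) → E}
    (hη : FibSec (d0 + d) M {p | Divisorial (d0 + d) p} (fun _ => 0) LE η) {P : Place ℂ K}
    (hP : Divisorial N P) {G : Fin d → Derivation ℂ K K} (hG : ∀ i, DerReg P (G i))
    (hGL : ∀ i, ∀ f ∈ LE, G i ((f : E) : K) = 0) :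
    Ge P 0 ((mtx (fun j => ((t j : E) : K)) G).det ^ M * ((η Dt : E) : K)) := by
  classical
  have hcLE : CharZero LE := charZero_of_injective_algebraMap (algebraMap ℂ LE).injective
  by_cases htriv : ∃ f : E, P.ord (algebraMap E K f) ≠ 0
  · obtain ⟨e, p, hp⟩ := exists_over (K := E) P htriv
    have hdiv : IsDivisorial p (d0 + d) := pDIVR ℂ E K (d0 + d) N p P e hE hN hp hP
    obtain ⟨y, E', i0, hy, hE', -, hyr, hpres⟩ := pFRAME ℂ E (d0 + d) hE
      (fun y hy => fin_over y hy) p hdiv
    have hreg : ∀ f : E, p.Reg f → P.Reg (algebraMap E K f) := by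
      intro f hf
      rcases hf with hf | hf
      · left; rw [hf, map_zero]
      · right
        rw [hp.2]
        exact mul_nonneg (by positivity) hf
    obtain ⟨x0, -, hx0, -⟩ := exists_crd (k := ℂ) (K := LE) hLE
    obtain ⟨x, hx⟩ : ∃ x : Fin d0 → E, ∀ j, x j = (x0 j : E) := ⟨_, fun _ => rfl⟩
    have hz : IsTranscendenceBasis ℂ (Sum.elim x t) := by
      have h1 := hx0.sumElim_comp ht
      have h2 := h1.comp_equiv (Equiv.sumComm (Fin d0) (Fin d))
      have h3 : Sum.elim x t = Sum.elim t (algebraMap LE E ∘ x0) ∘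
          Equiv.sumComm (Fin d0) (Fin d) := by
        funext a
        rcases a with a | a
        · exact hx a
        · rfl
      rw [h3]
      exact h2
    have hxL : ∀ j, x j ∈ LE := fun j => by
      rw [hx]
      exact (x0 j).2
    have hLx : ∀ G : Derivation ℂ E E, (∀ j, G (x j) = 0) → ∀ f ∈ LE, G f = 0 := by
      intro G hG f hf
      refine der_alg0 G (S := Set.range x) (by
        rintro _ ⟨j, rfl⟩
        exact hG j) ?_
      have h1 : IsAlgebraic (IntermediateField.adjoin ℂ (Set.range x0)) (⟨f, hf⟩ : LE) := by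
        have := hx0.isAlgebraic_field
        exact this.isAlgebraic _
      have h2 : (IntermediateField.adjoin ℂ (Set.range x0)).map LE.val =
          IntermediateField.adjoin ℂ (Set.range x) := by
        rw [IntermediateField.adjoin_map, ← Set.range_comp]
        congr 2
        funext j
        exact (hx j).symm
      rw [← h2]
      exact h1.ringHom_of_comp_eq
        ((IntermediateField.adjoin ℂ (Set.range x0)).equivMap LE.val).toRingEquiv.toRingHom
        (LE.val : LE →+* E) (RingEquiv.injective _) rfl
    -- the coordinates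
    obtain ⟨Zt, Zu, FZ⟩ := exists_frame hz
    have hbig : (big x t E').det ≠ 0 := by
      intro h0
      have h1 := FZ.big_frame
      have h2 : (fun i => Sum.elim Zt Zu (finSumFinEquiv.symm i)) =
          fun i => ∑ j, (Matrix.of fun i j => Sum.elim Zt Zu (finSumFinEquiv.symm i) (y j) :
            Matrix (Fin (d0 + d)) (Fin (d0 + d)) E) i j • E' j := by
        funext i
        exact (Pool.Agent.W73.PG.PULL.expand y hy E' hE' _).symm
      rw [h2, big_change, h0, mul_zero] at h1
      exact zero_ne_one h1
    obtain ⟨E₁, G₁, hE₁, hG₁, -, -, hG₁x, hdet⟩ := split_gen (P := p) (D := E') hpres hbig ∅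
      (fun _ _ h => absurd h (Set.notMem_empty _))
    have hG₁L : ∀ i, ∀ f ∈ LE, G₁ i f = 0 := fun i => hLx _ (hG₁x i)
    -- the form at the fields `G₁`
    obtain ⟨Gv, hGv⟩ : ∃ Gv : Fin d → Derivation LE E E, ∀ l f, Gv l f = G₁ l f :=
      ⟨fun l => lft LE (G₁ l) (hG₁L l), fun _ _ => rfl⟩
    have h1 : η Gv = (mtx t G₁).det ^ M * η Dt := by
      have h3 : (Matrix.of fun i j => Gv i (t j)) = mtx t G₁ :=
        Matrix.ext fun i l => hGv i (t l)
      rw [pluri_coord ht hDt hη.1 Gv, h3]
    have h2 : Ge P 0 (algebraMap E K ((mtx t G₁).det ^ M * η Dt)) := by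
      rw [← h1]
      have h3 := hη.2 p hdiv hdiv Gv (fun i f hf => by
        rw [hGv]
        exact hG₁ i f hf)
      refine (reg_iff_ge _ _).1 (hreg _ ?_)
      rcases h3 with h3 | h3
      · exact Or.inl h3
      · right
        have h4 : (0 : ℝ) ≤ (p.ord (η Gv) : ℝ) := by simpa using h3
        exact_mod_cast h4
    -- the matrices over `K`
    obtain ⟨H, hHl, hHr⟩ : ∃ H : Fin d0 ⊕ Fin d → E → K,
        (∀ a f, H (Sum.inl a) f = algebraMap E K (E₁ a f)) ∧
        ∀ b f, H (Sum.inr b) f = G b (algebraMap E K f) :=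
      ⟨Sum.elim (fun a f => algebraMap E K (E₁ a f)) (fun b f => G b (algebraMap E K f)),
        fun _ _ => rfl, fun _ _ => rfl⟩
    have hchain : ∀ a f, H a f = ∑ j, H a (y j) * algebraMap E K (E' j f) := by
      intro a f
      rcases a with a | a
      · rw [hHl]
        conv_lhs => rw [← Pool.Agent.W73.PG.PULL.expand y hy E' hE' (E₁ a)]
        rw [sum_smul_apply, map_sum]
        refine Finset.sum_congr rfl fun j _ => ?_
        rw [map_mul, hHl]
      · rw [hHr]
        rw [Pool.Agent.W73.PG.PULL.chain (L := K) y hy E' hE' (G a) f]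
        refine Finset.sum_congr rfl fun j _ => ?_
        rw [hHr]
    obtain ⟨B, hB⟩ : ∃ B : Matrix (Fin d0 ⊕ Fin d) (Fin d0 ⊕ Fin d) K,
        ∀ a b, B a b = H a (y (finSumFinEquiv b)) := ⟨Matrix.of fun a b => H a (y (finSumFinEquiv b)),
          fun _ _ => rfl⟩
    have hBge : Ge P 0 B.det := by
      rw [← Matrix.det_submatrix_equiv_self finSumFinEquiv.symm B]
      refine ge_det P _ 0 (fun _ _ => 0) (fun a b => ?_) (fun σ => by simp)
      rw [Matrix.submatrix_apply, hB]
      rcases finSumFinEquiv.symm a with a | a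
      · rw [hHl]
        exact (reg_iff_ge _ _).1 (hreg _ (hE₁ a _ (hyr _)))
      · rw [hHr]
        exact (reg_iff_ge _ _).1 (hG a _ (hreg _ (hyr _)))
    have hmul : (Matrix.of fun a b => H a (Sum.elim x t b)) =
        B * (big x t E').map (algebraMap E K) := by
      ext a b
      rw [Matrix.of_apply, Matrix.mul_apply, hchain, ← Equiv.sum_comp finSumFinEquiv]
      refine Finset.sum_congr rfl fun j _ => ?_
      rw [hB]
      rfl
    have hblk : (Matrix.of fun a b => H a (Sum.elim x t b)) =
        Matrix.fromBlocks ((mtx x E₁).map (algebraMap E K))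
          (Matrix.of fun i l => algebraMap E K (E₁ i (t l))) 0
          (mtx (fun j => ((t j : E) : K)) G) := by
      ext a b
      rcases a with a | a <;> rcases b with b | b
      · exact hHl a (x b)
      · exact hHl a (t b)
      · change H (Sum.inr a) (x b) = 0
        rw [hHr]
        exact hGL a _ (hxL b)
      · exact hHr a (t b)
    have hdd : algebraMap E K (mtx x E₁).det * (mtx (fun j => ((t j : E) : K)) G).det =
        B.det * algebraMap E K (big x t E').det := by
      have h3 := congrArg Matrix.det hmul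
      rw [hblk, Matrix.det_fromBlocks_zero₂₁, Matrix.det_mul] at h3
      rw [RingHom.map_det, RingHom.map_det]
      exact h3
    have hx1 : (mtx x E₁).det ≠ 0 := by
      intro h0
      rcases hdet with h3 | h3
      · rw [h0, zero_mul] at h3
        exact hbig h3
      · rw [h0, zero_mul, neg_zero] at h3
        exact hbig h3
    have hx1' : algebraMap E K (mtx x E₁).det ≠ 0 := by
      rw [Ne, map_eq_zero]
      exact hx1
    have hfin : (mtx (fun j => ((t j : E) : K)) G).det = B.det * algebraMap E K (mtx t G₁).det ∨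
        (mtx (fun j => ((t j : E) : K)) G).det = -(B.det * algebraMap E K (mtx t G₁).det) := by
      rcases hdet with h3 | h3
      · left
        apply mul_left_cancel₀ hx1'
        rw [hdd, h3, map_mul]
        ring
      · right
        apply mul_left_cancel₀ hx1'
        rw [hdd, h3, map_neg, map_mul]
        ring
    have h3 : Ge P 0 (B.det ^ M * algebraMap E K ((mtx t G₁).det ^ M * η Dt)) := by
      have := (hBge.pow M).mul h2
      simpa using this
    have e1 : (B.det * algebraMap E K (mtx t G₁).det) ^ M * ((η Dt : E) : K) =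
        B.det ^ M * algebraMap E K ((mtx t G₁).det ^ M * η Dt) := by
      rw [map_mul, map_pow, mul_pow]
      change _ * algebraMap E K (η Dt) = _
      ring
    rcases hfin with h4 | h4
    · rw [h4, e1]
      exact h3
    · rcases Nat.even_or_odd M with h5 | h5
      · rw [h4, h5.neg_pow, e1]
        exact h3
      · rw [h4, h5.neg_pow, neg_mul, e1]
        exact h3.neg
  · push Not at htriv
    have h1 : Ge P 0 (mtx (fun j => ((t j : E) : K)) G).det := by
      refine ge_det P _ 0 (fun _ _ => 0) (fun i j => ?_) (fun σ => by simp)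
      exact (reg_iff_ge _ _).1 (hG i _ (Or.inr (htriv (t j)).ge))
    have h2 : Ge P 0 ((η Dt : E) : K) := Or.inr (htriv (η Dt)).ge
    have h3 := (h1.pow M).mul h2
    simpa using h3

end Pool.Agent.X180.Tow
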