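import Pool.Agent.X180.Tow.Pull

/-!
Composition of forms along the fibres.
-/

set_option autoImplicit false
set_option linter.overlappingInstances false

open FF Pool.Agent.W602.GT Pool.Agent.W603.LV Pool.Agent.W619.PQ Pool.Agent.W619.Y
open Pool.Agent.TH585.SV Pool.Agent.Y172 Pool.Agent.Y191 Pool.Agent.X180.Iso

namespace Pool.Agent.X180.Tow

variable {K : Type} [Field K] [Algebra ℂ K]

section res

variable {L : IntermediateField ℂ K}

/-- the vector field as a vector field over the constants -/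
noncomputable def rs (D : Derivation L K K) : Derivation ℂ K K := D.restrictScalars ℂ

theorem rs_apply (D : Derivation L K K) (f : K) : rs D f = D f := rfl

theorem rs_sum {n : ℕ} (A : Fin n → K) (D : Fin n → Derivation L K K) :
    rs (∑ j, A j • D j) = ∑ j, A j • rs (D j) := by
  ext z
  have l1 : (∑ j, A j • D j) z = ∑ j, A j * D j z := sum_smul_apply _ _ _ _
  have l2 : (∑ j, A j • rs (D j)) z = ∑ j, A j * rs (D j) z := sum_smul_apply _ _ _ _
  rw [rs_apply, l1, l2]
  rfl

theorem rs_kills (D : Derivation L K K) {f : K} (hf : f ∈ L) : rs D f = 0 :=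
  D.map_algebraMap (⟨f, hf⟩ : L)

end res

variable {E : IntermediateField ℂ K} {LE : IntermediateField ℂ E} {d0 d e κ lam : ℕ}

theorem vert_kills {t : Fin d → E} (ht : IsTranscendenceBasis LE t) {G : Derivation ℂ K K}
    (hGL : ∀ f ∈ upF K LE, G f = 0) (hGt : ∀ j, G ((t j : E) : K) = 0) : ∀ f ∈ E, G f = 0 := by
  intro f hf
  refine der_alg0 G (S := (upF K LE : Set K) ∪ Set.range fun j => ((t j : E) : K)) (by
    rintro s (hs | ⟨j, rfl⟩)
    · exact hGL s hs
    · exact hGt j) ?_
  obtain ⟨T, hT⟩ : ∃ T : IntermediateField ℂ K, T = IntermediateField.adjoin ℂ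
    ((upF K LE : Set K) ∪ Set.range fun j => ((t j : E) : K)) := ⟨_, rfl⟩
  rw [← hT]
  have h1 : IsAlgebraic (IntermediateField.adjoin LE (Set.range t)) (⟨f, hf⟩ : E) :=
    ht.isAlgebraic_field.isAlgebraic _
  have h2 : ∀ z ∈ IntermediateField.adjoin LE (Set.range t), ((z : E) : K) ∈ T := by
    intro z hz
    induction hz using IntermediateField.adjoin_induction with
    | mem x hx =>
      obtain ⟨j, rfl⟩ := hx
      rw [hT]
      exact IntermediateField.subset_adjoin _ _ (Or.inr ⟨j, rfl⟩)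
    | algebraMap x =>
      rw [hT]
      exact IntermediateField.subset_adjoin _ _ (Or.inl (mem_upF.2 ⟨(x : E), x.2, rfl⟩))
    | add x y _ _ h1 h2 => exact add_mem h1 h2
    | inv x _ h1 => exact inv_mem h1
    | mul x y _ _ h1 h2 => exact mul_mem h1 h2
  let i : IntermediateField.adjoin LE (Set.range t) →+* T :=
    (((E.val : E →+* K)).comp (IntermediateField.adjoin LE (Set.range t)).val.toRingHom).codRestrict
      T.toSubfield fun w => h2 w w.2
  exact h1.ringHom_of_comp_eq i (E.val : E →+* K) i.injective rfl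

/-- **Composition of forms along the fibres.** -/
theorem tower [Algebra.EssFiniteType ℂ E] {N M m : ℕ} (hN : Algebra.trdeg ℂ K = N)
    (hE : Algebra.trdeg ℂ E = (d0 + d : ℕ)) (hLE : Algebra.trdeg ℂ LE = d0)
    (hd : Algebra.trdeg LE E = d) (he : Algebra.trdeg E K = e) (hM : 0 < M) (hm : 0 < m)
    {X : Set (Place ℂ K)} {δ : Place ℂ K → ℝ}
    {η : Fin (κ + 1) → (Fin d → Derivation LE E E) → E}
    (hη : ∀ a, FibSec (d0 + d) M {p | Divisorial (d0 + d) p} (fun _ => 0) LE (η a))
    (hηne : ∃ G, η 0 G ≠ 0 ∧ AlgebraicIndependent LE (fun i : Fin κ => η i.succ G / η 0 G))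
    {θ : Fin (lam + 1) → (Fin e → Derivation E K K) → K} (hθ : ∀ b, FibSec N m X δ E (θ b))
    (hne : ∃ G, θ 0 G ≠ 0 ∧ AlgebraicIndependent E (fun i : Fin lam => θ i.succ G / θ 0 G)) :
    ∃ ω : Fin (κ + lam + 1) → (Fin (d + e) → Derivation (upF K LE) K K) → K,
      (∀ j, FibSec N (M * m) X δ (upF K LE) (ω j)) ∧
      ∃ D, ω 0 D ≠ 0 ∧
        AlgebraicIndependent (upF K LE) (fun i : Fin (κ + lam) => ω i.succ D / ω 0 D) := by
  classical
  have hcLE : CharZero LE := charZero_of_injective_algebraMap (algebraMap ℂ LE).injective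
  have hcE : CharZero E := charZero_of_injective_algebraMap (algebraMap ℂ E).injective
  obtain ⟨t, Dt, ht, hDt⟩ := exists_crd (k := LE) (K := E) hd
  obtain ⟨u, Dv, hu, hDv⟩ := exists_crd (k := E) (K := K) he
  obtain ⟨t', ht'⟩ : ∃ t' : Fin d → K, t' = fun j => ((t j : E) : K) := ⟨_, rfl⟩
  -- the forms on the frames
  have hη' : ∀ (G : Fin d → Derivation LE E E) a,
      η a G = (Matrix.of fun i l => G i (t l)).det ^ M * η a Dt := fun G a =>
    pluri_coord ht hDt (hη a).1 G
  have hθ' : ∀ (G : Fin e → Derivation E K K) b,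
      θ b G = (Matrix.of fun i l => G i (u l)).det ^ m * θ b Dv := fun G b =>
    pluri_coord hu hDv (hθ b).1 G
  obtain ⟨G1, hG1, hind1⟩ := hηne
  obtain ⟨G2, hG2, hind2⟩ := hne
  have hdet1 : (Matrix.of fun i l => G1 i (t l) : Matrix (Fin d) (Fin d) E).det ^ M ≠ 0 := by
    intro h0
    apply hG1
    rw [hη', h0, zero_mul]
  have hdet2 : (Matrix.of fun i l => G2 i (u l) : Matrix (Fin e) (Fin e) K).det ^ m ≠ 0 := by
    intro h0
    apply hG2
    rw [hθ', h0, zero_mul]
  have hη0 : η 0 Dt ≠ 0 := by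
    intro h0
    apply hG1
    rw [hη', h0, mul_zero]
  have hθ0 : θ 0 Dv ≠ 0 := by
    intro h0
    apply hG2
    rw [hθ', h0, mul_zero]
  have hi1 : AlgebraicIndependent LE (fun i : Fin κ => η i.succ Dt / η 0 Dt) := by
    have e1 : (fun i : Fin κ => η i.succ G1 / η 0 G1) =
        fun i : Fin κ => η i.succ Dt / η 0 Dt := by
      funext i
      rw [hη' G1 i.succ, hη' G1 0, mul_div_mul_left _ _ hdet1]
    rwa [e1] at hind1
  have hi2 : AlgebraicIndependent E (fun i : Fin lam => θ i.succ Dv / θ 0 Dv) := by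
    have e1 : (fun i : Fin lam => θ i.succ G2 / θ 0 G2) =
        fun i : Fin lam => θ i.succ Dv / θ 0 Dv := by
      funext i
      rw [hθ' G2 i.succ, hθ' G2 0, mul_div_mul_left _ _ hdet2]
    rwa [e1] at hind2
  obtain ⟨v, hv⟩ : ∃ v : Fin (κ + 1) → K, ∀ a, v a = ((η a Dt : E) : K) := ⟨_, fun _ => rfl⟩
  have hv0 : v 0 ≠ 0 := by
    rw [hv]
    intro h0
    exact hη0 (Subtype.ext h0)
  -- the sections
  obtain ⟨g, hg⟩ : ∃ g : Fin (κ + 1) → Fin (lam + 1) → K, ∀ a b, g a b =
      v 0 ^ (m - 1) * v a * (θ 0 Dv ^ (M - 1) * θ b Dv) := ⟨_, fun _ _ => rfl⟩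
  have hsec : ∀ a b, FibSec N (M * m) X δ (upF K LE) (fun D : Fin (d + e) →
      Derivation (upF K LE) K K => pf t' u M m (g a b) (fun i => rs (D i))) := by
    intro a b
    refine ⟨fun A D => ?_, fun P hPX hPd D hD => ?_⟩
    · change pf t' u M m (g a b) (fun i => rs (∑ j, A i j • D j)) = _
      rw [← pf_pluri t' u M m (g a b) A fun i => rs (D i)]
      congr 1
      funext i
      exact rs_sum _ _
    by_cases h0 : (big t' u (fun i => rs (D i))).det = 0
    · left
      change g a b * (big t' u (fun i => rs (D i))).det ^ (M * m) = 0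
      rw [h0, zero_pow (Nat.mul_pos hM hm).ne', mul_zero]
    obtain ⟨E₁, G, hE₁, hG, hE₁L, hGL, hGt, hdet⟩ := split_gen (P := P)
      (D := fun i => rs (D i)) (fun i f hf => hD i f hf) h0 (upF K LE : Set K)
      (fun i f hf => rs_kills (D i) hf)
    have hGE : ∀ i, ∀ f ∈ E, G i f = 0 := fun i => vert_kills ht (hGL i) fun j => by
      have := hGt i j
      rw [ht'] at this
      exact this
    obtain ⟨Gv, hGv⟩ : ∃ Gv : Fin e → Derivation E K K, ∀ l f, Gv l f = G l f :=
      ⟨fun l => lft E (G l) (hGE l), fun _ _ => rfl⟩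
    have h1 : ∀ b, GeR P (-(m * δ P)) ((mtx u G).det ^ m * θ b Dv) := by
      intro b
      have h2 := (hθ b).2 P hPX hPd Gv (fun i f hf => by rw [hGv]; exact hG i f hf)
      have h3 : θ b Gv = (mtx u G).det ^ m * θ b Dv := by
        have h4 : (Matrix.of fun i l => Gv i (u l)) = mtx u G :=
          Matrix.ext fun i l => hGv i (u l)
        rw [hθ', h4]
      rw [h3] at h2
      exact h2
    have h2 : ∀ a, GeR P 0 ((mtx t' E₁).det ^ M * v a) := by
      intro a
      rw [hv, ht']
      rcases pull_est hN hE hLE ht hDt (hη a) hPd hE₁ (fun i f hf => hE₁L i _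
        (mem_upF.2 ⟨f, hf, rfl⟩)) with h3 | h3
      · exact Or.inl h3
      · right
        exact_mod_cast h3
    have h3 := (((h2 0).pow (m - 1)).mul (h2 a)).mul (((h1 0).pow (M - 1)).mul (h1 b))
    have e1 : ((mtx t' E₁).det ^ M * v 0) ^ (m - 1) * ((mtx t' E₁).det ^ M * v a) *
        (((mtx u G).det ^ m * θ 0 Dv) ^ (M - 1) * ((mtx u G).det ^ m * θ b Dv)) =
        g a b * ((mtx t' E₁).det * (mtx u G).det) ^ (M * m) := by
      rw [hg]
      obtain ⟨m', rfl⟩ := Nat.exists_eq_succ_of_ne_zero hm.ne'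
      obtain ⟨M', rfl⟩ := Nat.exists_eq_succ_of_ne_zero hM.ne'
      simp only [Nat.succ_eq_add_one, Nat.add_sub_cancel]
      have e2 : (mtx t' E₁).det ^ ((M' + 1) * (m' + 1)) =
          ((mtx t' E₁).det ^ (M' + 1)) ^ m' * (mtx t' E₁).det ^ (M' + 1) := by
        rw [← pow_mul, ← pow_add]
        congr 1
      have e3 : (mtx u G).det ^ ((M' + 1) * (m' + 1)) =
          ((mtx u G).det ^ (m' + 1)) ^ M' * (mtx u G).det ^ (m' + 1) := by
        rw [← pow_mul, ← pow_add]
        congr 1
        ring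
      rw [mul_pow ((mtx t' E₁).det), e2, e3, mul_pow, mul_pow]
      ring
    rw [e1] at h3
    have h4 : GeR P (-((M * m : ℕ) * δ P)) (g a b * ((mtx t' E₁).det * (mtx u G).det) ^ (M * m)) := by
      refine h3.mono ?_
      have hM1 : ((M - 1 : ℕ) : ℝ) = M - 1 := by
        rw [Nat.cast_sub hM]
        simp
      rw [hM1]
      push_cast
      nlinarith
    change GeR P (-((M * m : ℕ) * δ P)) (pf t' u M m (g a b) fun i => rs (D i))
    unfold pf
    rcases hdet with h5 | h5
    · rw [h5]
      exact h4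
    · rw [h5]
      rcases Nat.even_or_odd (M * m) with h6 | h6
      · rw [h6.neg_pow]
        exact h4
      · rw [h6.neg_pow, mul_neg]
        exact h4.neg
  have hg00 : g 0 0 ≠ 0 := by
    rw [hg]
    exact mul_ne_zero (mul_ne_zero (pow_ne_zero _ hv0) hv0)
      (mul_ne_zero (pow_ne_zero _ hθ0) hθ0)
  -- a frame of the fields over `LE`
  obtain ⟨D0, hD0⟩ : ∃ D0 : Fin (d + e) → Derivation (upF K LE) K K,
      (big t' u (fun i => rs (D0 i))).det = 1 := by
    have hz : IsTranscendenceBasis LE (Sum.elim t' u) := by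
      have h1 := ht.sumElim_comp hu
      have h2 := h1.comp_equiv (Equiv.sumComm (Fin d) (Fin e))
      have h3 : Sum.elim t' u = Sum.elim u (algebraMap E K ∘ t) ∘
          Equiv.sumComm (Fin d) (Fin e) := by
        funext a
        rcases a with a | a
        · rw [ht']
          rfl
        · rfl
      rw [h3]
      exact h2
    have hz' : IsTranscendenceBasis (upF K LE) (Sum.elim t' u) := tb_up hz
    have h4 : ∀ i : Fin (d + e), ∃ D : Derivation (upF K LE) K K, ∀ b : Fin d ⊕ Fin e,
        D (Sum.elim t' u b) = if finSumFinEquiv.symm i = b then 1 else 0 := fun i =>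
      exists_der (Sum.elim t' u) hz' _
    choose D0 hD0 using h4
    refine ⟨D0, ?_⟩
    have h5 : big t' u (fun i => rs (D0 i)) = 1 := by
      ext a b
      change D0 (finSumFinEquiv a) (Sum.elim t' u b) = _
      rw [hD0, Equiv.symm_apply_apply, Matrix.one_apply]
    rw [h5, Matrix.det_one]
  have hval : ∀ z : K, pf t' u M m z (fun i => rs (D0 i)) = z := by
    intro z
    unfold pf
    rw [hD0, one_pow, mul_one]
  refine ⟨Fin.cons (fun D => pf t' u M m (g 0 0) fun i => rs (D i)) fun i =>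
    Sum.elim (fun i (D : Fin (d + e) → Derivation (upF K LE) K K) =>
      pf t' u M m (g i.succ 0) fun i => rs (D i))
    (fun i D => pf t' u M m (g 0 i.succ) fun i => rs (D i)) (finSumFinEquiv.symm i), fun j => ?_,
    D0, ?_, ?_⟩
  · refine Fin.cases ?_ (fun i => ?_) j
    · exact hsec 0 0
    · rw [Fin.cons_succ]
      rcases finSumFinEquiv.symm i with i | i
      · exact hsec _ _
      · exact hsec _ _
  · rw [Fin.cons_zero, hval]
    exact hg00
  · have h1 := hi1.sumElim_comp hi2
    have h2 := h1.comp (fun i : Fin (κ + lam) => (finSumFinEquiv.symm i).swap)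
      (Sum.swap_leftInverse.injective.comp finSumFinEquiv.symm.injective)
    refine ai_up.2 ?_
    convert h2 using 1
    funext i
    rw [Fin.cons_succ, Fin.cons_zero, hval, Function.comp_apply]
    rcases finSumFinEquiv.symm i with i | i
    · change pf t' u M m (g i.succ 0) (fun i => rs (D0 i)) / g 0 0 =
        algebraMap E K (η i.succ Dt / η 0 Dt)
      rw [hval, hg, hg, map_div₀]
      change _ = ((η i.succ Dt : E) : K) / ((η 0 Dt : E) : K)
      rw [← hv, ← hv]
      have := pow_ne_zero (m - 1) hv0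
      have := pow_ne_zero (M - 1) hθ0
      field_simp
    · change pf t' u M m (g 0 i.succ) (fun i => rs (D0 i)) / g 0 0 = θ i.succ Dv / θ 0 Dv
      rw [hval, hg, hg]
      have := pow_ne_zero (m - 1) hv0
      have := pow_ne_zero (M - 1) hθ0
      field_simp

end Pool.Agent.X180.Tow
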